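import Pool.Agent.Lib.MP_d3d358_ag.Orb.NoIso
import Pool.Agent.Lib.MP_d3d358_ag.Orb.Gen

open Pool.Agent.Lib.MP_d3d358_ag Pool.Agent.Lib.MP_d3d358_ag.Kum

theorem Pool.Agent.Lib.MP_d3d358_ag.Old.OrbifoldFrobenius.result :
    ∃ z : Fin 3 → ℂ, 0 < (z 0).im ∧ (z 1).im ^ 2 < (z 0).im * (z 2).im ∧
      ∀ Q : Matrix (Fin 2) (Fin 4) ℂ,
        Q * (!![1, z 0, 0, z 1; 0, z 1, 5, z 2] : Matrix (Fin 2) (Fin 4) ℂ).transpose = 0 →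
        ¬∃ (g : R →ₗ[ℚ] R) (t : ℂ),
          (∀ (k : ℕ) (a : R), grade k a → grade k (g a)) ∧
          (∀ a b : R, g (mul a b) = mul (g a) (g b)) ∧ g pt = pt ∧
          g.baseChange ℂ (sigma !![1, z 0, 0, z 1; 0, z 1, 5, z 2]) = t • sigma Q := by
  obtain ⟨z, hz, h0, h1⟩ := Orb.ex_siegel
  refine ⟨z, h0, h1, fun Q hQ => ?_⟩
  rintro ⟨g, t, hk, hm, hp, hs⟩
  have e : ∀ a : R, grade 3 a ↔ a.1 ∈ Orb.grade 3 := fun a => by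
    constructor
    · rintro ⟨a1, a2, a3⟩
      exact ⟨a1, a2, a3 (by norm_num)⟩
    · rintro ⟨a1, a2, a3⟩
      exact ⟨a1, a2, fun _ => a3⟩
  exact Orb.no_iso hz Q hQ g t (fun a ha => (e _).1 (hk 3 a ((e a).2 ha))) hm hp hs
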